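import Pool.Agent.P.MP_7ede32_ag.Ell.Bridge

open scoped Manifold ContDiff
open Pool.Agent.P.MP_7ede32_ag.Ell

namespace Pool.Agent.Old.MP_7ede32_ag.EllFib

theorem result {X : Type} [TopologicalSpace X] [T2Space X] [CompactSpace X]
    [ChartedSpace (ℂ × ℂ) X] [IsManifold 𝓘(ℂ, ℂ × ℂ) ω X] (hK : AmpleCanonical X) (L : PeriodPair)
    (π : X → ℂ ⧸ L.lattice) (hπ : IsHolomorphic L π)
    (hF : ∀ s, (∀ x, π x = s → IsCritical L π x → IsNode L π x) ∨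
      ∀ h : ℂ → X, IsEntire h → (∀ z, π (h z) = s) → ∀ z, h z = h 0) :
    ∃ (B : Set (ℂ ⧸ L.lattice)) (T : Set (ℂ → X)) (n : ℕ), B.Finite ∧ T.Finite ∧ 0 < n ∧
      (∀ f ∈ T, IsEntire f ∧ (∀ z, π (f z) = L.lattice.mkQ z) ∧
        ∀ w ∈ L.lattice, ∀ z, f (z + n * w) = f z) ∧
      ∀ h : ℂ → X, IsEntire h → (∃ z, h z ≠ h 0) → (∃ s ∈ B, ∀ z, π (h z) = s) ∨
        ∃ f ∈ T, ∃ φ : ℂ → ℂ, Differentiable ℂ φ ∧ h = f ∘ φ := by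
  have := ChartedSpace.secondCountable_of_sigmaCompact (ℂ × ℂ) X
  let _ : MetricSpace X := TopologicalSpace.metrizableSpaceMetric X
  obtain ⟨m, N, a, hm, h1, h2⟩ := hK
  obtain ⟨B, T, n, hB, hT, hn, H1, H2⟩ := ggl (fib_toSrf L π hπ a hm h1 h2 hF)
  exact ⟨B, T, n, hB, hT, hn, fun f hf => ⟨(hol_iff rfl).1 (H1 f hf).1, (H1 f hf).2⟩,
    fun h hh ⟨z, hz⟩ => H2 h ((hol_iff rfl).2 hh) fun H => hz (H z)⟩

end Pool.Agent.Old.MP_7ede32_ag.EllFib
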