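import Pool.Agent.P.MP_7ede32_ag.Full.All

open scoped Manifold ContDiff
open Pool.Agent.P.MP_7ede32_ag.Ell Pool.Agent.P.MP_7ede32_ag.Full

namespace Pool.Agent.Old.MP_7ede32_ag.EllGGL

theorem result {X : Type} [TopologicalSpace X] [T2Space X] [CompactSpace X] [ConnectedSpace X]
    [ChartedSpace (ℂ × ℂ) X] [IsManifold 𝓘(ℂ, ℂ × ℂ) ω X] (hX : GenType X) (L : PeriodPair)
    (π : X → ℂ ⧸ L.lattice) (hπ : IsHolomorphic L π)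
    (a : PluriForm X 1) (ha : ∃ x, a.val X x ≠ 0)
    (x₀ : X) (h₀ : ∀ x, π x = π x₀ → ¬ IsCritical L π x ∧ a.val X x = 0) :
    ∃ (B : Set (ℂ ⧸ L.lattice)) (T : Set (ℂ → X)) (n : ℕ), B.Finite ∧ T.Finite ∧ 0 < n ∧
      (∀ f ∈ T, IsEntire f ∧ (∀ z, π (f z) = L.lattice.mkQ z) ∧
        ∀ w ∈ L.lattice, ∀ z, f (z + n * w) = f z) ∧
      ∀ h : ℂ → X, IsEntire h → (∃ z, h z ≠ h 0) → (∃ s ∈ B, ∀ z, π (h z) = s) ∨
        ∃ f ∈ T, ∃ φ : ℂ → ℂ, Differentiable ℂ φ ∧ h = f ∘ φ := by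
  have := ChartedSpace.secondCountable_of_sigmaCompact (ℂ × ℂ) X
  let _ : MetricSpace X := TopologicalSpace.metrizableSpaceMetric X
  exact final Pool.Agent.P.MP_7ede32_ag.Geo.smain_all aPhi aMfB aHf sLift L π hπ hX a ha x₀ h₀

end Pool.Agent.Old.MP_7ede32_ag.EllGGL
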